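import Pool.Agent.Y258.SD.CStmts
import Pool.Agent.H470D4.Star
import Pool.Agent.H935R2.PS.D

set_option autoImplicit false

/-!
# Real corners and the final real analysis (job C21)
-/

namespace Pool.Agent.Y492.SD

open Finset Pool.Agent.H470D4 Pool.Agent.Y258
open Pool.Agent.H935R2.PS (La uu nn dl mx Suit suitable)

section
variable {p M B n : ℕ} [Fact p.Prime]

theorem card_filter_eq_sum_ii {ι : Type} [Fintype ι] (P : ι → Prop) [DecidablePred P] :
    (((univ : Finset ι).filter P).card : ℝ) = ∑ i, ii (P i) := by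
  classical
  rw [card_filter, Nat.cast_sum]
  refine sum_congr rfl (fun i _ => ?_)
  by_cases h : P i
  · rw [ii_true h, if_pos h]; simp
  · rw [ii_false h, if_neg h]; simp

/-- From digit corners to real corners. -/
theorem real_gb (c : Flg p M B n) (hc : IsFlags c) (E : ℝ) (hGB : GB c E)
    (x : Fin (n + 2) → ℝ) (hx0 : ∀ a, 0 ≤ x a) (hx1 : ∀ a, x a ≤ 1) :
    |∑ ν : Vec p M B, ii (∀ a, tv (fun j => c a j ν) (M * B) < x a) -
      (p:ℝ) ^ (M * B) * ∏ a, x a| ≤ E + (2 * n + 5) := by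
  have hp : (0:ℝ) < (p:ℝ) ^ (M * B) := pow_pos p_pos'' _
  choose X hX1 hX2 hX3 hXz using fun a => round_in (p := p) (M * B) (x a) (hx0 a) (hx1 a)
  -- replacing the corner
  have key :
      |∑ ν : Vec p M B, ii (∀ a, tv (fun j => c a j ν) (M * B) < x a) -
       ∑ ν : Vec p M B, ii (∀ a, tv (fun j => c a j ν) (M * B) < tv (X a) (M * B))| ≤ n + 2 := by
    rw [← sum_sub_distrib]
    have h1 : ∀ ν : Vec p M B,
        |ii (∀ a, tv (fun j => c a j ν) (M * B) < x a) -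
          ii (∀ a, tv (fun j => c a j ν) (M * B) < tv (X a) (M * B))| ≤
        ∑ a, ii (tv (fun j => c a j ν) (M * B) =
          ((p ^ (M * B) - 1 : ℕ) : ℝ) / (p:ℝ) ^ (M * B)) := by
      intro ν
      have hle : ii (∀ a, tv (fun j => c a j ν) (M * B) < tv (X a) (M * B)) ≤
          ii (∀ a, tv (fun j => c a j ν) (M * B) < x a) :=
        ii_mono (fun h => fun a => hX2 a _ (h a))
      rw [abs_of_nonneg (by linarith)]
      by_cases hex : ∃ a, tv (fun j => c a j ν) (M * B) =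
          ((p ^ (M * B) - 1 : ℕ) : ℝ) / (p:ℝ) ^ (M * B)
      · obtain ⟨a, ha⟩ := hex
        have h2 := single_le_sum (f := fun a => ii (tv (fun j => c a j ν) (M * B) =
          ((p ^ (M * B) - 1 : ℕ) : ℝ) / (p:ℝ) ^ (M * B))) (fun a _ => ii_nonneg _) (mem_univ a)
        beta_reduce at h2
        rw [ii_true ha] at h2
        have h3 := ii_le_one (∀ a, tv (fun j => c a j ν) (M * B) < x a)
        have h4 := ii_nonneg (∀ a, tv (fun j => c a j ν) (M * B) < tv (X a) (M * B))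
        linarith
      · push Not at hex
        have h5 : ii (∀ a, tv (fun j => c a j ν) (M * B) < x a) ≤
            ii (∀ a, tv (fun j => c a j ν) (M * B) < tv (X a) (M * B)) :=
          ii_mono (fun h => fun a => (hX3 a _ (h a)).resolve_right (hex a))
        have h6 : 0 ≤ ∑ a, ii (tv (fun j => c a j ν) (M * B) =
          ((p ^ (M * B) - 1 : ℕ) : ℝ) / (p:ℝ) ^ (M * B)) := sum_nonneg fun a _ => ii_nonneg _
        linarith
    refine le_trans (abs_sum_le_sum_abs _ _) (le_trans (sum_le_sum fun ν _ => h1 ν) ?_)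
    rw [sum_comm]
    have h7 : ∀ a ∈ (univ : Finset (Fin (n + 2))),
        ∑ ν : Vec p M B, ii (tv (fun j => c a j ν) (M * B) =
          ((p ^ (M * B) - 1 : ℕ) : ℝ) / (p:ℝ) ^ (M * B)) ≤ 1 := by
      intro a _
      have h8 := last_digit_unique c hc (fun _ _ => 0) a
        (((p ^ (M * B) - 1 : ℕ) : ℝ) / (p:ℝ) ^ (M * B))
      simpa only [add_zero] using h8
    refine le_trans (sum_le_sum h7) ?_
    simp
  have hX0 : ∀ a, 0 ≤ tv (X a) (M * B) := fun a => (tv_bounds (X a) (M * B)).1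
  have hX01 : ∀ a, tv (X a) (M * B) ≤ 1 := fun a => (tv_bounds (X a) (M * B)).2.le
  have hpr := prod_diff univ (fun a => tv (X a) (M * B)) x (1 / (p:ℝ) ^ (M * B)) hX0 hX01 hx0 hx1 hX1
  have hcard : ((univ : Finset (Fin (n + 2))).card : ℝ) = n + 2 := by simp
  rw [hcard] at hpr
  have hvol : |(p:ℝ) ^ (M * B) * (∏ a, tv (X a) (M * B)) - (p:ℝ) ^ (M * B) * ∏ a, x a| ≤ n + 2 := by
    rw [← mul_sub, abs_mul, abs_of_pos hp]
    calc (p:ℝ) ^ (M * B) * |∏ a, tv (X a) (M * B) - ∏ a, x a|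
        ≤ (p:ℝ) ^ (M * B) * ((n + 2) * (1 / (p:ℝ) ^ (M * B))) :=
          mul_le_mul_of_nonneg_left hpr hp.le
      _ = n + 2 := by field_simp
  have hG := hGB X
  rw [abs_le] at key hvol hG ⊢
  constructor <;> linarith [key.1, key.2, hvol.1, hvol.2, hG.1, hG.2]

end

/-- (C21a) -/
theorem c21a : St_C21a := by
  classical
  intro n q _ M B c hc E hE hGB
  have hcard : Fintype.card (Vec q M B) = q ^ (M * B) := by
    rw [Fintype.card_fun, ZMod.card, Fintype.card_fin]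
  let e : Vec q M B ≃ Fin (q ^ (M * B)) := Fintype.equivFinOfCardEq hcard
  refine ⟨fun i a => tv (fun j => c a j (e.symm i)) (M * B), fun i a => tv_bounds _ _, ?_⟩
  intro x hx0 hx1
  have h := real_gb c hc E hGB x hx0 hx1
  have h1 : (((univ : Finset (Fin (q ^ (M * B)))).filter
      (fun i => ∀ a, tv (fun j => c a j (e.symm i)) (M * B) < x a)).card : ℝ) =
      ∑ ν : Vec q M B, ii (∀ a, tv (fun j => c a j ν) (M * B) < x a) := by
    rw [card_filter_eq_sum_ii]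
    exact Equiv.sum_comp e.symm
      (fun ν : Vec q M B => ii (∀ a, tv (fun j => c a j ν) (M * B) < x a))
  rw [h1]
  push_cast
  exact h

/-- `u ^ 4 ≤ 64 * 2 ^ (u-1)` -/
theorem pow4_le (u : ℕ) : (u + 1) ^ 4 ≤ 64 * 2 ^ u := by
  rcases Nat.lt_or_ge u 6 with h | h
  · interval_cases u <;> norm_num
  · induction u, h using Nat.le_induction with
    | base => norm_num
    | succ k hk ih =>
      have h1 : (k + 1 + 1) ^ 4 ≤ 2 * (k + 1) ^ 4 := by
        obtain ⟨j, rfl⟩ : ∃ j, k = 6 + j := ⟨k - 6, by omega⟩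
        ring_nf
        nlinarith [sq_nonneg j, sq_nonneg (j^2), Nat.zero_le (j^3)]
      calc (k + 1 + 1) ^ 4 ≤ 2 * (k + 1) ^ 4 := h1
        _ ≤ 2 * (64 * 2 ^ k) := Nat.mul_le_mul_left _ ih
        _ = _ := by rw [pow_succ]; ring

theorem uu_le (q : ℕ) (hq : La q ≠ 0) : ((uu q : ℝ)) ^ 2 ≤ 8 * √(La q) := by
  have h1 : (uu q) ^ 4 ≤ 64 * La q := by
    unfold uu
    calc (Nat.log 2 (La q) + 1) ^ 4 ≤ 64 * 2 ^ Nat.log 2 (La q) := pow4_le _
      _ ≤ 64 * La q := Nat.mul_le_mul_left _ (Nat.pow_log_le_self 2 hq)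
  have h2 : ((uu q : ℝ)) ^ 4 ≤ 64 * La q := by exact_mod_cast h1
  have h3 : ((uu q : ℝ)) ^ 2 = √(((uu q : ℝ)) ^ 4) := by
    rw [show ((uu q : ℝ)) ^ 4 = (((uu q : ℝ)) ^ 2) ^ 2 by ring, Real.sqrt_sq (by positivity)]
  rw [h3]
  calc √(((uu q : ℝ)) ^ 4) ≤ √(64 * La q) := Real.sqrt_le_sqrt h2
    _ = 8 * √(La q) := by
      rw [Real.sqrt_mul (by norm_num), show (64:ℝ) = 8 ^ 2 by norm_num, Real.sqrt_sq (by norm_num)]

/-- The trivial bound. -/
theorem triv (N k : ℕ) : ∃ ξ : Fin N → Fin k → ℝ,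
    (∀ i j, 0 ≤ ξ i j ∧ ξ i j < 1) ∧ ∀ x : Fin k → ℝ, (∀ j, 0 ≤ x j) → (∀ j, x j ≤ 1) →
      |(((univ : Finset (Fin N)).filter (fun i => ∀ j, ξ i j < x j)).card : ℝ) - N * ∏ j, x j| ≤
        N := by
  refine ⟨fun _ _ => 0, fun _ _ => ⟨le_rfl, one_pos⟩, fun x hx hx' => ?_⟩
  have h1 : ((univ : Finset (Fin N)).filter (fun i => ∀ j, (0:ℝ) < x j)).card ≤ N := by
    calc _ ≤ (univ : Finset (Fin N)).card := card_filter_le _ _
      _ = N := by simp
  have h2 : (0:ℝ) ≤ ∏ j, x j := prod_nonneg fun j _ => hx j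
  have h3 : ∏ j, x j ≤ 1 := prod_le_one (fun j _ => hx j) fun j _ => hx' j
  have h4 : (((univ : Finset (Fin N)).filter (fun i => ∀ j, (0:ℝ) < x j)).card : ℝ) ≤ N := by
    exact_mod_cast h1
  have h5 : (0:ℝ) ≤ (((univ : Finset (Fin N)).filter (fun i => ∀ j, (0:ℝ) < x j)).card : ℝ) := by
    positivity
  have h6 : (0:ℝ) ≤ N := by positivity
  rw [abs_le]
  constructor <;> nlinarith

/-- Powers of the logarithm. -/
theorem pow_log {m : ℝ} (hm : 0 < m) (k n : ℕ) (hk : 0 < k) :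
    ∃ t : ℝ, 0 < t ∧ t ^ k = m ∧
      m ^ ((n:ℝ) + 1 - 1 / (2 * k)) = t ^ (k * (n + 1)) / √t := by
  have hk' : (k:ℝ) ≠ 0 := by exact_mod_cast hk.ne'
  refine ⟨m ^ ((1:ℝ) / k), Real.rpow_pos_of_pos hm _, ?_, ?_⟩
  · rw [← Real.rpow_natCast, ← Real.rpow_mul hm.le, one_div, inv_mul_cancel₀ hk', Real.rpow_one]
  · rw [Real.sqrt_eq_rpow, ← Real.rpow_mul hm.le, ← Real.rpow_natCast, ← Real.rpow_mul hm.le,
      ← Real.rpow_sub hm]
    congr 1
    push_cast
    field_simp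

/-- (C21) -/
theorem c21 : St_Nets → St_C21 := by
  intro hnets n hn
  obtain ⟨e, C, hC⟩ := hnets n hn
  obtain ⟨l₀, hl₀⟩ := suitable
  obtain ⟨k, hk⟩ : ∃ k : ℕ, k = e + 3 := ⟨_, rfl⟩
  obtain ⟨K, hK⟩ : ∃ K : ℕ, K = k * (n + 1) := ⟨_, rfl⟩
  have hk0 : 0 < k := by omega
  have hk3 : 3 ≤ k := by omega
  obtain ⟨T, hT⟩ : ∃ T : ℝ, T = max (max (l₀ : ℝ) (C : ℝ)) 1 := ⟨_, rfl⟩
  have hT1 : (l₀:ℝ) ≤ T := by rw [hT]; exact (le_max_left _ _).trans (le_max_left _ _)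
  have hT2 : (C:ℝ) ≤ T := by rw [hT]; exact (le_max_right _ _).trans (le_max_left _ _)
  have hT4 : 1 ≤ T := by rw [hT]; exact le_max_right _ _
  have hkr : (0:ℝ) < k := by exact_mod_cast hk0
  refine ⟨1 / (2 * k), by positivity, 4 * (8 * C * 8 ^ K + (2 * n + 5)) + Real.exp (T ^ k),
    by positivity, fun N hN => ?_⟩
  have hN3 : (3:ℝ) ≤ N := by exact_mod_cast hN
  have hNpos : (0:ℝ) < N := by linarith
  have hlog1 : 1 < Real.log N := by
    rw [Real.lt_log_iff_exp_lt hNpos]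
    have := Real.exp_one_lt_d9
    linarith
  have hm0 : 0 < Real.log N := by linarith
  obtain ⟨t, ht0, htm, htp⟩ := pow_log hm0 k n hk0
  have hexp : (0:ℝ) ≤ (n:ℝ) + 1 - 1 / (2 * k) := by
    have h1 : 1 / (2 * (k:ℝ)) ≤ 1 := by
      rw [div_le_one (by positivity)]
      have : (3:ℝ) ≤ k := by exact_mod_cast hk3
      linarith
    have h2 : (0:ℝ) ≤ n := Nat.cast_nonneg n
    linarith
  have hgoal : 1 ≤ Real.log N ^ ((n:ℝ) + 1 - 1 / (2 * k)) := Real.one_le_rpow hlog1.le hexp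
  rcases lt_or_ge t T with htT | htT
  · -- small N
    obtain ⟨ξ, hξ, hb⟩ := triv N (n + 2)
    refine ⟨ξ, hξ, fun x hx hx' => (hb x hx hx').trans ?_⟩
    have h1 : (N:ℝ) ≤ Real.exp (T ^ k) := by
      rw [← Real.log_le_iff_le_exp hNpos, ← htm]
      exact pow_le_pow_left₀ ht0.le htT.le k
    calc (N:ℝ) ≤ Real.exp (T ^ k) := h1
      _ ≤ 4 * (8 * C * 8 ^ K + (2 * n + 5)) + Real.exp (T ^ k) := by
          have : (0:ℝ) ≤ 4 * (8 * C * 8 ^ K + (2 * n + 5)) := by positivity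
          linarith
      _ ≤ (4 * (8 * C * 8 ^ K + (2 * n + 5)) + Real.exp (T ^ k)) *
            Real.log N ^ ((n:ℝ) + 1 - 1 / (2 * k)) :=
          le_mul_of_one_le_right (by positivity) hgoal
  · -- large N
    have ht1 : 1 ≤ t := hT4.trans htT
    obtain ⟨l, hl⟩ : ∃ l : ℕ, l = 4 * ⌈t⌉₊ := ⟨_, rfl⟩
    have hlr : (l:ℝ) = 4 * (⌈t⌉₊ : ℝ) := by rw [hl]; push_cast; ring
    have hl1 : 4 * t ≤ l := by rw [hlr]; linarith [Nat.le_ceil t]
    have hl2 : (l:ℝ) < 4 * (t + 1) := by rw [hlr]; linarith [Nat.ceil_lt_add_one ht0.le]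
    have hll0 : l₀ ≤ l := by
      have : (l₀:ℝ) ≤ l := by linarith
      exact_mod_cast this
    obtain ⟨q, hqp, hqs, hq1, hq2⟩ := hl₀ l hll0
    have hq1r : (l:ℝ) ≤ 2 * La q := by exact_mod_cast hq1
    have hq2r : (La q:ℝ) ≤ l := by exact_mod_cast hq2
    have hqne : q ≠ 0 := hqp.ne_zero
    have h2La : 2 ^ La q ≤ q := Nat.pow_log_le_self 2 hqne
    have hLa1 : 2 * t ≤ La q := by linarith
    have hLa2 : (La q : ℝ) ≤ 8 * t := by linarith
    have hLa0 : (0:ℝ) < La q := by linarith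
    have hLane : La q ≠ 0 := by
      intro h; rw [h] at hLa0; simp at hLa0
    have hCq : C ≤ q := by
      have h1 : (C:ℝ) ≤ La q := by linarith
      have h2 : C ≤ La q := by exact_mod_cast h1
      have h3 : La q < 2 ^ La q := Nat.lt_two_pow_self
      omega
    have hfact : Fact q.Prime := ⟨hqp⟩
    have hlogq : Real.log 2 * (La q : ℝ) ≤ Real.log q := by
      have h1 : ((2:ℝ) ^ La q) ≤ q := by exact_mod_cast h2La
      have h2 : Real.log ((2:ℝ) ^ La q) ≤ Real.log q := Real.log_le_log (by positivity) h1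
      rw [Real.log_pow] at h2
      linarith
    obtain ⟨c, hc, hGB⟩ := hC q hqs hCq
    obtain ⟨m, hm⟩ : ∃ m : ℕ, m = La q ^ e * La q ^ 2 := ⟨_, rfl⟩
    have hNq : N ≤ q ^ (La q ^ e * La q ^ 2) := by
      rw [← hm]
      have h1 : Real.log N ≤ m * Real.log q := by
        rw [← htm]
        have h2 : t ^ k ≤ (La q : ℝ) ^ k * Real.log 2 := by
          have h3 : (2 * t) ^ k ≤ (La q : ℝ) ^ k := pow_le_pow_left₀ (by positivity) hLa1 k
          have h4 : (8:ℝ) ≤ 2 ^ k := by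
            calc (8:ℝ) = 2 ^ 3 := by norm_num
              _ ≤ 2 ^ k := pow_le_pow_right₀ (by norm_num) hk3
          have h5 := Real.log_two_gt_d9
          have h6 : 0 < t ^ k := pow_pos ht0 k
          rw [mul_pow] at h3
          calc t ^ k ≤ 8 * t ^ k * Real.log 2 := by nlinarith
            _ ≤ 2 ^ k * t ^ k * Real.log 2 := by
                apply mul_le_mul_of_nonneg_right _ (by linarith)
                exact mul_le_mul_of_nonneg_right h4 h6.le
            _ ≤ (La q : ℝ) ^ k * Real.log 2 := mul_le_mul_of_nonneg_right h3 (by linarith)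
        have h7 : (m:ℝ) * (Real.log 2 * La q) = (La q : ℝ) ^ k * Real.log 2 := by
          rw [hm, hk]; push_cast; ring
        calc t ^ k ≤ (La q : ℝ) ^ k * Real.log 2 := h2
          _ = (m:ℝ) * (Real.log 2 * La q) := h7.symm
          _ ≤ m * Real.log q := mul_le_mul_of_nonneg_left hlogq (Nat.cast_nonneg m)
      rw [← Real.log_pow] at h1
      have h2 : (0:ℝ) < (q:ℝ) ^ m := by
        have : (0:ℝ) < q := by exact_mod_cast hqp.pos
        positivity
      have h3 : (N:ℝ) ≤ (q:ℝ) ^ m := (Real.log_le_log_iff hNpos h2).1 h1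
      exact_mod_cast h3
    obtain ⟨E, hE⟩ : ∃ E : ℝ, E = C * ((La q : ℝ) ^ (e + 2)) ^ (n + 1) * (La q : ℝ) ^ n *
      (uu q : ℝ) ^ 2 := ⟨_, rfl⟩
    rw [← hE] at hGB
    have hE0 : 0 ≤ E := by rw [hE]; positivity
    obtain ⟨ξ, hξ01, hξ⟩ := c21a n q _ _ c hc E hE0 hGB
    obtain ⟨ζ, hζ01, hζ⟩ := subnet (k := n + 1) hNq (by omega) (by positivity) ξ hξ01 hξ
    refine ⟨ζ, hζ01, fun x hx hx' => (hζ x hx hx').trans ?_⟩
    rw [htp] at hgoal ⊢
    rw [← hK] at hgoal ⊢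
    have hst : 0 < √t := Real.sqrt_pos.2 ht0
    have hsL : 0 < √(La q : ℝ) := Real.sqrt_pos.2 hLa0
    have hsL2 : √(La q : ℝ) * √(La q : ℝ) = La q := Real.mul_self_sqrt hLa0.le
    have hE1 : E ≤ 8 * C * 8 ^ K * (t ^ K / √t) := by
      have h1 := uu_le q hLane
      have h2 : E ≤ C * ((La q : ℝ) ^ (e + 2)) ^ (n + 1) * (La q : ℝ) ^ n * (8 * √(La q)) := by
        rw [hE]
        exact mul_le_mul_of_nonneg_left h1 (by positivity)
      have h3 : (C:ℝ) * ((La q : ℝ) ^ (e + 2)) ^ (n + 1) * (La q : ℝ) ^ n * (8 * √(La q)) =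
          8 * C * ((La q : ℝ) ^ K / √(La q)) := by
        have h4 : (La q : ℝ) ^ K = ((La q : ℝ) ^ (e + 2)) ^ (n + 1) * (La q : ℝ) ^ n *
            (√(La q : ℝ) * √(La q : ℝ)) := by
          rw [hsL2, hK, hk, ← pow_mul, ← pow_add, ← pow_succ]
          congr 1
          ring
        rw [h4]
        field_simp
      have h5 : (La q : ℝ) ^ K / √(La q) ≤ 8 ^ K * (t ^ K / √t) := by
        rw [← mul_div_assoc, ← mul_pow]
        apply div_le_div₀ (by positivity) (pow_le_pow_left₀ hLa0.le hLa2 K) hst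
        exact Real.sqrt_le_sqrt (by linarith)
      calc E ≤ 8 * C * ((La q : ℝ) ^ K / √(La q)) := by rw [← h3]; exact h2
        _ ≤ 8 * C * (8 ^ K * (t ^ K / √t)) := mul_le_mul_of_nonneg_left h5 (by positivity)
        _ = _ := by ring
    have h6 : (0:ℝ) ≤ Real.exp (T ^ k) * (t ^ K / √t) := by positivity
    have h7 : (2 * n + 5 : ℝ) ≤ (2 * n + 5) * (t ^ K / √t) :=
      le_mul_of_one_le_right (by positivity) hgoal
    calc 4 * (E + (2 * n + 5)) ≤ 4 * (8 * C * 8 ^ K * (t ^ K / √t) + (2 * n + 5) * (t ^ K / √t)) := by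
          linarith
      _ ≤ (4 * (8 * C * 8 ^ K + (2 * n + 5)) + Real.exp (T ^ k)) * (t ^ K / √t) := by
          linarith

end Pool.Agent.Y492.SD
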